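import Pool.Agent.W2helper40.MO.Traj

set_option autoImplicit false

/-!
Möller's conjecture for almost all choices of bounded remainders.

The remainder `r_j`, `x ≡ j (mod d)`, in the map `x ↦ (m x - r_j) / d ^ a(x)` is replaced by a number
`r(x) ≡ m x (mod d)` which may depend on `x`. If these remainders are chosen at random, independently
for different `x`, each of them uniformly from `N` consecutive possible values, where
`m ^ ((d - 1) N) < d ^ (d N - s_d(N))` (`s_d(N)` is the sum of the digits of `N` in base `d`), then the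
exceptional set is almost surely finite, and all large `x` are sent below themselves within
`C log x` steps. If `m ≤ d ^ (d / (d - 1))`, the condition holds for all large `N`. For `d = 2`, `m = 3`
one can take `N = 4`: the maps `(3 x + ξ_x) / 2 ^ a(x)` with `ξ_x ∈ {-3, -1, 1, 3}`.

The remainders are chosen once and for all; then the trajectories of the map are studied (a quenched
result). The proof: for large `x`, an orbit which does not repeat a value and stays large is, by
independence, dominated by a Markov chain, which is controlled by the function `x ^ t ρ ^ v_d(x)`;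
short cycles of large numbers are excluded by a lower bound for linear forms in two logarithms.
-/

namespace Pool.Agent.Results.MP_fd8838_nt.AlmostAllRemainders

open Filter Topology MeasureTheory ProbabilityTheory

universe u

/-- The map `H(x) = (m x - r(x)) / d ^ a(x)`, where `d ^ a(x)` is the largest power of `d` dividing
`m x - r(x)`. The remainders `r(x)` may depend on `x`. -/
noncomputable def H (d m : ℕ) (r : ℕ → ℤ) (x : ℕ) : ℕ :=
  ((m : ℤ) * x - r x).toNat / d ^ multiplicity d ((m : ℤ) * x - r x).toNat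

/-- `H^(k)(n)` is defined: the orbit stops at a point `y` with `m y ≤ r(y)`. -/
def IsDefined (d m : ℕ) (r : ℕ → ℤ) (n k : ℕ) : Prop :=
  ∀ i < k, r ((H d m r)^[i] n) < m * ((H d m r)^[i] n : ℕ)

/-- The exceptional set: the `n` (positive, since not divisible by `d`) with `H^(k)(n) ≥ n` for all
`k ≥ 1` for which `H^(k)(n)` is defined. -/
def E (d m : ℕ) (r : ℕ → ℤ) : Set ℕ :=
  {n | ¬ d ∣ n ∧ ∀ k, 1 ≤ k → IsDefined d m r n k → n ≤ (H d m r)^[k] n}

/-- The possible remainders at `x`: the `N` integers `r ≡ m x (mod d)` with `c ≤ r < c + d N`. -/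
def remainders (d m x N : ℕ) (c : ℤ) : Set ℤ := {r | (d : ℤ) ∣ m * x - r ∧ c ≤ r ∧ r < c + d * N}

/-- `(d - 1) log (m / d) + δ ≤ (1 - s_d(N) / N) log d`, where `s_d(N)` is the sum of the digits of `N`
in base `d` -/
def Contracting (d m N : ℕ) (δ : ℝ) : Prop :=
  ((d : ℝ) - 1) * (Real.log m - Real.log d) + δ ≤
    (1 - ((Nat.digits d N).sum : ℝ) / N) * Real.log d

/-- Let `d ≥ 2`, `m ≥ 1` be coprime.

(1) For every `δ > 0` there is `C = C(d, m, δ)` such that the following holds. Let the remainders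
`ρ(x)` be independent, and let `ρ(x)` be uniformly distributed on the `N(x)` possible remainders in
`[c(x), c(x) + d N(x))` for all large `x` not divisible by `d`, where `N(x) ≥ 1`,
`Contracting d m N(x) δ`, `(d N(x))^2 ≤ x` and `c(x)^2 ≤ x` for all large `x` (for example `N` and
`c` bounded). Then almost surely the exceptional set is finite; for all large `n` not divisible by
`d` there is `1 ≤ k ≤ C log n` such that `H^(k)(n)` is defined and smaller than `n`; every trajectory
which does not stop ends in a cycle; and there are only finitely many cycles.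

(2) If `m ^ ((d - 1) N) < d ^ (d N - s_d(N))`, then `Contracting d m N δ` for some `δ > 0`.

(3) If `m ≤ d ^ (d / (d - 1))`, then for some `δ > 0`: `Contracting d m N δ` for all large `N`. Hence
(1) applies to every such pair `(d, m)` if the windows contain sufficiently many remainders.

(4) `Contracting 2 3 4 (1/10)`: (1) applies to `d = 2`, `m = 3` and `N = 4`, e.g. to the maps
`(3 x + ξ_x) / 2 ^ a(x)`, `ξ_x ∈ {-3, -1, 1, 3}` (`c = -3`). -/
theorem result (d m : ℕ) (hd : 2 ≤ d) (hm : 1 ≤ m) (hco : Nat.Coprime m d) :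
    (∀ δ : ℝ, 0 < δ → ∃ C : ℝ, 0 < C ∧ ∀ {Ω : Type u} [MeasurableSpace Ω] (P : Measure Ω)
      [IsProbabilityMeasure P] (N : ℕ → ℕ) (c : ℕ → ℤ) (ρ : ℕ → Ω → ℤ),
      (∀ᶠ x : ℕ in atTop, 1 ≤ N x ∧ Contracting d m (N x) δ ∧ (d * N x) ^ 2 ≤ x ∧ (c x) ^ 2 ≤ x) →
      (∀ x, Measurable (ρ x)) → iIndepFun ρ P →
      (∀ᶠ x : ℕ in atTop, ¬ d ∣ x → P.map (ρ x) = uniformOn (remainders d m x (N x) (c x))) →
      ∀ᵐ ω ∂P, (E d m fun x => ρ x ω).Finite ∧
        (∀ᶠ n : ℕ in atTop, ¬ d ∣ n → ∃ k : ℕ, 1 ≤ k ∧ (k : ℝ) ≤ C * Real.log n ∧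
          IsDefined d m (fun x => ρ x ω) n k ∧ (H d m fun x => ρ x ω)^[k] n < n) ∧
        (∀ n : ℕ, ¬ d ∣ n → (∀ k, IsDefined d m (fun x => ρ x ω) n k) →
          ∃ k, (H d m fun x => ρ x ω)^[k] n ∈ Function.periodicPts (H d m fun x => ρ x ω)) ∧
        {n : ℕ | ¬ d ∣ n ∧ (∀ k, IsDefined d m (fun x => ρ x ω) n k) ∧
          n ∈ Function.periodicPts (H d m fun x => ρ x ω)}.Finite) ∧
    (∀ N : ℕ, 1 ≤ N → m ^ ((d - 1) * N) < d ^ (d * N - (Nat.digits d N).sum) →
      ∃ δ : ℝ, 0 < δ ∧ Contracting d m N δ) ∧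
    ((m : ℝ) ≤ (d : ℝ) ^ ((d : ℝ) / ((d : ℝ) - 1)) →
      ∃ δ : ℝ, 0 < δ ∧ ∃ N₁ : ℕ, ∀ N : ℕ, N₁ ≤ N → Contracting d m N δ) ∧
    Contracting 2 3 4 (1 / 10) := by
  refine ⟨fun δ hδ => ?_, fun N hN h => W2helper40.MO.contracting_of hd hm hN h,
    fun h => W2helper40.MO.contracting_large hd hm hco h, W2helper40.MO.contracting_234⟩
  obtain ⟨C, hC0, hC⟩ := W2helper40.MO.mainW.{u} hd hm hco hδ
  refine ⟨C, hC0, ?_⟩
  intro Ω _ P _ N c ρ h1 h2 h3 h4
  filter_upwards [hC P N c ρ h1 h2 h3 h4] with ω hω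
  suffices hE : (E d m fun x => ρ x ω).Finite from
    ⟨hE, hω, fun n hn hdef => W2helper40.MO.eventually_periodic hd hE hn hdef,
      W2helper40.MO.cycles_finite hd hE⟩
  obtain ⟨n₀, hn₀⟩ := eventually_atTop.1 hω
  apply (Set.finite_Iio n₀).subset
  rintro n ⟨hnd, hn⟩
  rw [Set.mem_Iio]
  by_contra hc
  push Not at hc
  obtain ⟨k, hk1, _, hk2, hk3⟩ := hn₀ n hc hnd
  exact absurd (hn k hk1 hk2) (not_le.2 hk3)

end Pool.Agent.Results.MP_fd8838_nt.AlmostAllRemainders
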