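import Pool.Agent.W2helper30.HG.Main
import Pool.Agent.W2helper30.AN.Ex

/-!
# The members of very sparse deterministic families in the exceptional sets of Möller's maps

Let `gcd(m, d) = 1`, `2 ≤ m ≤ d^(d/(d-1))`, let `R` be admissible, and let `n_i = c₀ + κ ⌊U f(x₀ + 1 / i)⌋`, `M < i ≤ 2 M`, be the members
of a sparse family of an analytic function `f`; `U` may be as large as `exp ((log M) ^ (3 / 2 - ε₀))`. With
`S = (log M) ^ 3 / (log U) ^ 2`, for all the `i` but at most `M exp (- c S)`, the `H`-orbits of ALL positive integers `n` which are not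
divisible by `d` and at a distance of at most `exp (c S)` from `n_i` have a positive term `H^k(n) ≤ exp (- c S) n`. If `U` is at most a
fixed power of `M`, these are power savings.

Method. Vinogradov's mean value method for the sums of `e(t f(x₀ + 1 / i))` shows that the members are equidistributed among the
residue classes modulo `d ^ N`, up to a constant factor, for all `N ≤ c S`. The number of the classes modulo `d ^ N` of integers with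
an untypical `T`-orbit of length `N` is at most `d ^ (N (1 - c))` (starting library `Pool.Agent.Y927.GP`), and a typical orbit drops
by a power of `d ^ N`.
-/

set_option autoImplicit false

namespace Pool.Agent.Results.MP_fd8838_nt.AnalyticSparseFamilies

open Pool.Agent.Y927.GP
open Pool.Agent.W2helper30.AN (Ord Rg vl)

/-- `f` is real analytic at `x₀`, and `K ≥ 1` is the order of the zero of `f - f x₀` at `x₀` -/
def OrderAt (f : ℝ → ℝ) (x₀ : ℝ) (K : ℕ) : Prop :=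
  AnalyticAt ℝ f x₀ ∧ 1 ≤ K ∧ (∀ j : ℕ, 1 ≤ j → j < K → iteratedDeriv j f x₀ = 0) ∧
    iteratedDeriv K f x₀ ≠ 0

/-- the range of the parameters: `M ^ (K + δ₀) ≤ U ≤ exp ((log M) ^ (3 / 2 - ε₀))` -/
def InRange (K : ℕ) (δ₀ ε₀ : ℝ) (M : ℕ) (U : ℝ) : Prop :=
  (M : ℝ) ^ ((K : ℝ) + δ₀) ≤ U ∧ U ≤ Real.exp ((Real.log M) ^ (3 / 2 - ε₀))

/-- the members of the family -/
noncomputable def member (f : ℝ → ℝ) (x₀ U : ℝ) (c₀ κ : ℤ) (i : ℕ) : ℤ :=
  c₀ + κ * ⌊U * f (x₀ + 1 / i)⌋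

/-- The map of the problem: `H(x) = (m x - r_j) / d ^ a(x)` for the residue `j` of `x` modulo `d`. -/
noncomputable def H (d m : ℕ) (r : ℤ → ℤ) (x : ℤ) : ℤ :=
  (m * x - r (x % d)) / (d : ℤ) ^ multiplicity (d : ℤ) (m * x - r (x % d))

/-- `H^k(y)` is defined: `m z > r_j` for the terms `z = y, H(y), …, H^(k-1)(y)` and their residues `j`. -/
def Defined (d m : ℕ) (r : ℤ → ℤ) (y : ℤ) (k : ℕ) : Prop :=
  ∀ i < k, r ((H d m r)^[i] y % d) < m * (H d m r)^[i] y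

/-- The exceptional set `E(d, m, R)`: the positive integers `n` not divisible by `d` such that
`H^k(n) ≥ n` for all `k ≥ 1` for which `H^k(n)` is defined. -/
def E (d m : ℕ) (r : ℤ → ℤ) : Set ℤ :=
  {n | 0 < n ∧ ¬ (d : ℤ) ∣ n ∧ ∀ k, 1 ≤ k → Defined d m r n k → n ≤ (H d m r)^[k] n}

/-- If `n` is positive and not divisible by `d`, some term `H^k(n)` of its orbit, `k ≥ 1`, is defined and
`0 < H^k(n) ≤ q n`. -/
def Drops (d m : ℕ) (r : ℤ → ℤ) (q : ℝ) (n : ℤ) : Prop :=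
  0 < n → ¬ (d : ℤ) ∣ n → ∃ k : ℕ, 1 ≤ k ∧ Defined d m r n k ∧ 0 < (H d m r)^[k] n ∧
    (((H d m r)^[k] n : ℤ) : ℝ) ≤ q * n

lemma not_mem_E {d m : ℕ} {r : ℤ → ℤ} {q : ℝ} (hq : q < 1) {n : ℤ} (h : Drops d m r q n) : n ∉ E d m r := by
  rintro ⟨h1, h2, h3⟩
  obtain ⟨k, g1, g2, g3, g4⟩ := h h1 h2
  have h4 := h3 k g1 g2
  have h5 : (n : ℝ) ≤ (((H d m r)^[k] n : ℤ) : ℝ) := by exact_mod_cast h4
  have h6 : (0 : ℝ) < n := by exact_mod_cast h1
  nlinarith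

/-- **All the integers near the members of very sparse families drop.** Let `d, m ≥ 2` be coprime with `m ≤ d^(d/(d-1))`, and let `R` be
admissible. Let `f` be real analytic at `x₀`, let `K` be the order of `f - f x₀` at `x₀`, and let `δ₀ > 0` and `0 < ε₀ < 1 / 2`. There
is `c > 0` such that for all integers `κ ≠ 0`, all large `M`, all real `U` with `M ^ (K + δ₀) ≤ U ≤ exp ((log M) ^ (3 / 2 - ε₀))`
and ALL integers `c₀`, with `n_i = c₀ + κ ⌊U f(x₀ + 1 / i)⌋` and `S = (log M) ^ 3 / (log U) ^ 2`: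
(1) for all `i ∈ (M, 2 M]` but at most `M exp (- c S)`: for ALL integers `n` with `|n - n_i| ≤ exp (c S)` which are positive and not
divisible by `d`, some `H^k(n)`, `k ≥ 1`, is defined and `0 < H^k(n) ≤ exp (- c S) n`;
(2) for all `i ∈ (M, 2 M]` but at most `M exp (- c S)`, no element of `E(d, m, R)` is at a distance of at most `exp (c S)` from `n_i`.
Every function `f` which is real analytic at `x₀` and not constant near `x₀` qualifies, with a suitable `K`; for example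
`f x = x`, `x₀ = 0`: the numbers `⌊U / i⌋`. -/
theorem result :
    (∀ (d m : ℕ), 2 ≤ d → 2 ≤ m → Nat.Coprime m d → (m : ℝ) ≤ (d : ℝ) ^ ((d : ℝ) / ((d : ℝ) - 1)) →
      ∀ r : ℤ → ℤ, (∀ j : ℤ, 1 ≤ j → j < d → r j ≡ m * j [ZMOD d]) →
      ∀ (f : ℝ → ℝ) (x₀ : ℝ) (K : ℕ), OrderAt f x₀ K → ∀ δ₀ ε₀ : ℝ, 0 < δ₀ → 0 < ε₀ → ε₀ < 1 / 2 →
      ∃ c : ℝ, 0 < c ∧ ∀ κ : ℤ, κ ≠ 0 → ∃ M₀ : ℕ, ∀ M : ℕ, M₀ ≤ M → ∀ U : ℝ, InRange K δ₀ ε₀ M U → ∀ c₀ : ℤ,
        ({i : ℕ | M < i ∧ i ≤ 2 * M ∧ ¬ ∀ n : ℤ, |(n : ℝ) - (member f x₀ U c₀ κ i : ℤ)| ≤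
            Real.exp (c * (Real.log M ^ 3 / Real.log U ^ 2)) →
            Drops d m r (Real.exp (-(c * (Real.log M ^ 3 / Real.log U ^ 2)))) n}.ncard : ℝ) ≤
          M * Real.exp (-(c * (Real.log M ^ 3 / Real.log U ^ 2))) ∧
        ({i : ℕ | M < i ∧ i ≤ 2 * M ∧ ∃ n ∈ E d m r, |(n : ℝ) - (member f x₀ U c₀ κ i : ℤ)| ≤
            Real.exp (c * (Real.log M ^ 3 / Real.log U ^ 2))}.ncard : ℝ) ≤
          M * Real.exp (-(c * (Real.log M ^ 3 / Real.log U ^ 2)))) ∧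
    (∀ (f : ℝ → ℝ) (x₀ : ℝ), AnalyticAt ℝ f x₀ → (¬ ∀ᶠ x in nhds x₀, f x = f x₀) → ∃ K : ℕ, OrderAt f x₀ K) ∧
    (∀ (f : ℝ → ℝ) (x₀ : ℝ), AnalyticAt ℝ f x₀ → deriv f x₀ ≠ 0 → OrderAt f x₀ 1) ∧
    OrderAt (fun x => x) 0 1 := by
  classical
  refine ⟨fun d m hd hm hc hle r hr f x₀ K hf δ₀ ε₀ hδ₀ hε₀ hε₀2 => ?_,
    fun f x₀ h1 h2 => Pool.Agent.W2helper30.AN.ord_exists h1 h2,
    fun f x₀ h1 h2 => Pool.Agent.W2helper30.AN.ord_one h1 h2,
    Pool.Agent.W2helper30.AN.ord_one (by fun_prop) (by simp)⟩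
  have hf' : Ord f x₀ K := hf
  have hr' : ∀ j : ℤ, 1 ≤ j → j < d → (d : ℤ) ∣ m * j - r j := fun j h1 h2 => (hr j h1 h2).dvd
  obtain ⟨c, hc0, hmain⟩ := Pool.Agent.W2helper30.HG.near (r := r) hd hm hc hle hr' hf' δ₀ ε₀ hδ₀ hε₀ hε₀2
  refine ⟨c, hc0, fun κ hκ => ?_⟩
  obtain ⟨N1, h1⟩ := hmain κ hκ
  obtain ⟨N2, h2⟩ := Pool.Agent.W2helper30.HG.S_big hf'.2.1 δ₀ ε₀ hδ₀ hε₀ 1
  refine ⟨max N1 N2, fun M hM U hU c₀ => ?_⟩
  have hU' : Rg K δ₀ ε₀ M U := ⟨hU.1, hU.2⟩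
  have h3 := h1 M (le_of_max_le_left hM) U hU' c₀
  have h4 := h2 M (le_of_max_le_right hM) U hU'
  have hfirst : ({i : ℕ | M < i ∧ i ≤ 2 * M ∧ ¬ ∀ n : ℤ, |(n : ℝ) - (member f x₀ U c₀ κ i : ℤ)| ≤
      Real.exp (c * (Real.log M ^ 3 / Real.log U ^ 2)) →
      Drops d m r (Real.exp (-(c * (Real.log M ^ 3 / Real.log U ^ 2)))) n}.ncard : ℝ) ≤
      M * Real.exp (-(c * (Real.log M ^ 3 / Real.log U ^ 2))) := by
    refine le_trans (le_of_eq ?_) h3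
    rw [← Set.ncard_coe_finset]
    congr 2
    ext i
    simp only [Set.mem_setOf_eq, Finset.coe_filter, Finset.mem_Ioc, and_assoc]
    rfl
  refine ⟨hfirst, le_trans ?_ hfirst⟩
  have hfin : {i : ℕ | M < i ∧ i ≤ 2 * M ∧ ¬ ∀ n : ℤ, |(n : ℝ) - (member f x₀ U c₀ κ i : ℤ)| ≤
      Real.exp (c * (Real.log M ^ 3 / Real.log U ^ 2)) →
      Drops d m r (Real.exp (-(c * (Real.log M ^ 3 / Real.log U ^ 2)))) n}.Finite :=
    (Set.finite_Iic (2 * M)).subset fun i hi => hi.2.1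
  refine Nat.cast_le.2 (Set.ncard_le_ncard (fun i hi => ?_) hfin)
  obtain ⟨hi1, hi2, n, hn1, hn2⟩ := hi
  refine ⟨hi1, hi2, fun h5 => ?_⟩
  refine not_mem_E ?_ (h5 n hn2) hn1
  rw [Real.exp_lt_one_iff]
  have : 0 < c * (Real.log M ^ 3 / Real.log U ^ 2) := by
    unfold Pool.Agent.W2helper30.AN.Sv at h4
    positivity
  linarith

end Pool.Agent.Results.MP_fd8838_nt.AnalyticSparseFamilies
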